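import Pool.Agent.H90.HBProof

set_option autoImplicit false

namespace Pool.Agent.Results.MP_a6d20f_an.NoAcceleration

open Pool.Agent.H90.HBDefs

/-- No tuning of heavy-ball accelerates over the scalar class. -/
theorem result (γ β : ℝ → ℝ → ℝ) (c κ₀ : ℝ) (hc : 0 < c) (hκ : 0 < κ₀) (hκ1 : κ₀ < 1) :
    ∃ μ L : ℝ, 0 < μ ∧ μ < L ∧ μ / L ≤ κ₀ ∧
      ∃ (f : ℝ → ℝ) (xs : ℝ) (x : ℕ → ℝ), InClass μ L f ∧ (∀ y, f xs ≤ f y) ∧
        IsHBRun (γ μ L) (β μ L) f x ∧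
        ((1 - c * Real.sqrt (μ / L) : ℝ) : EReal) < rate x xs :=
  Pool.Agent.H90.HBProof.main γ β c κ₀ hc hκ hκ1

end Pool.Agent.Results.MP_a6d20f_an.NoAcceleration
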